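import Pool.Agent.Helper77.SO.St3
import Pool.Agent.Helper35.PM.M_POT

/-!
# Project SO, module CYC (from cycles to `HC`)
-/

set_option autoImplicit false

open Equiv Equiv.Perm Pool.Agent.Helper35.PM Pool.Agent.Helper77.HY Pool.Agent.Helper77.OF4
open Pool.Agent.Helper77.SO

namespace Pool.Agent.Helper36.SO.CYC

theorem z2_ne {a b : ZMod 2} (h : a ≠ b) : a + b = 1 := by
  revert h
  revert a b
  decide

theorem z2_eq {a b : ZMod 2} (h : a = b) : a + b = 0 := by
  subst h
  exact zadd_self a

theorem z2_add1 {a b : ZMod 2} (h : a = b + 1) : a ≠ b := by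
  revert h
  revert a b
  decide

theorem conn_map {V : Type} {G : SimpleGraph V} (R : Rot G) (hG : G.Connected) :
    Conn R.map := by
  intro v w
  obtain ⟨p⟩ := hG.preconnected v w
  induction p with
  | nil => exact Relation.ReflTransGen.refl
  | cons h p ih => exact Relation.ReflTransGen.head ⟨⟨(_, _), h⟩, rfl, rfl⟩ ih

theorem sum_r {V D : Type} [Fintype D] [DecidableEq V] (M : PMap V D) (p : D → ZMod 2) (v : V) :
    ∑ d ∈ Finset.univ.filter (fun d => M.t d = v), p (M.r d) =
      ∑ d ∈ Finset.univ.filter (fun d => M.t d = v), p d := by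
  refine Finset.sum_nbij' (fun d => M.r d) (fun d => M.r.symm d) ?_ ?_ ?_ ?_ ?_
  · intro d hd
    simp only [Finset.mem_filter, Finset.mem_univ, true_and] at hd ⊢
    rw [M.t_r, hd]
  · intro d hd
    simp only [Finset.mem_filter, Finset.mem_univ, true_and] at hd ⊢
    rw [← M.t_r, M.r.apply_symm_apply, hd]
  · intro d _
    simp
  · intro d _
    simp
  · intro d _
    rfl

/-- the sum of `p (ι d) + p d` over the darts at a vertex vanishes -/
theorem sum_zero {V D : Type} [Fintype D] [DecidableEq V] (M : PMap V D) (p : D → ZMod 2)
    (hp : FC M p) (v : V) :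
    ∑ d ∈ Finset.univ.filter (fun d => M.t d = v), (p (M.ι d) + p d) = 0 := by
  have h1 : ∀ d, p (M.ι d) = p (M.r d) := by
    intro d
    rw [← hp (M.ι d), PMap.φ_apply, M.inv]
  simp_rw [h1]
  rw [Finset.sum_add_distrib, sum_r]
  exact zadd_self _

/-- an acyclic finite graph with an edge has a vertex with exactly one neighbour -/
theorem leaf {V : Type} [Finite V] (T : SimpleGraph V) (hT : T.IsAcyclic) {a b : V}
    (hab : T.Adj a b) : ∃ u w, T.Adj u w ∧ ∀ w', T.Adj u w' → w' = w := by
  have : Nonempty V := ⟨a⟩
  obtain ⟨u, v, p, hp, hmax⟩ := SimpleGraph.Walk.exists_isPath_forall_isPath_length_le_length T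
  have h1 : 1 ≤ p.length := by
    have := hmax a b (SimpleGraph.Walk.cons hab SimpleGraph.Walk.nil) (by
      rw [SimpleGraph.Walk.cons_isPath_iff]
      refine ⟨SimpleGraph.Walk.IsPath.nil, ?_⟩
      rw [SimpleGraph.Walk.support_nil, List.mem_singleton]
      exact hab.ne)
    rwa [SimpleGraph.Walk.length_cons, SimpleGraph.Walk.length_nil] at this
  have hnil : ¬ p.Nil := by
    intro h
    have := SimpleGraph.Walk.length_eq_zero_iff.2 h
    omega
  refine ⟨u, p.snd, p.adj_snd hnil, fun w hw => ?_⟩
  refine hT.eq_snd_of_adj_start hp hw ?_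
  by_contra hns
  have := hmax w v (SimpleGraph.Walk.cons hw.symm p) (hp.cons hns)
  rw [SimpleGraph.Walk.length_cons] at this
  omega

/-- the sum over the darts at a vertex of the indicator of a cycle vanishes -/
theorem cyc_sum {V : Type} [DecidableEq V] {G : SimpleGraph V} [Fintype G.Dart] {v : V}
    (c : G.Walk v v) (hc : c.IsCycle) (w : V) :
    ∑ d ∈ Finset.univ.filter (fun d : G.Dart => d.fst = w),
      (if d.edge ∈ c.edges then (1 : ZMod 2) else 0) = 0 := by
  classical
  rw [← Finset.sum_filter, Finset.sum_const]
  by_cases hw : w ∈ c.support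
  · have h2 := hc.ncard_neighborSet_toSubgraph_eq_two hw
    obtain ⟨y, z, hyz, hyz2⟩ := Set.ncard_eq_two.1 h2
    have hadj : ∀ a, (c.toSubgraph.Adj w a ↔ a = y ∨ a = z) := by
      intro a
      have : a ∈ c.toSubgraph.neighborSet w ↔ a ∈ ({y, z} : Set V) := by rw [hyz2]
      exact this
    have hy : G.Adj w y := c.toSubgraph.adj_sub ((hadj y).2 (Or.inl rfl))
    have hz : G.Adj w z := c.toSubgraph.adj_sub ((hadj z).2 (Or.inr rfl))
    have hset : (Finset.univ.filter (fun d : G.Dart => d.fst = w)).filter
        (fun d => d.edge ∈ c.edges) = {⟨(w, y), hy⟩, ⟨(w, z), hz⟩} := by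
      ext d
      rw [Finset.mem_filter, Finset.mem_filter, Finset.mem_insert, Finset.mem_singleton]
      constructor
      · rintro ⟨⟨-, hd⟩, he⟩
        have h3 : c.toSubgraph.Adj w d.snd := by
          rw [SimpleGraph.Walk.adj_toSubgraph_iff_mem_edges]
          have : d.edge = s(w, d.snd) := by
            rw [← hd]
            rfl
          rwa [← this]
        rcases (hadj _).1 h3 with h4 | h4
        · left
          apply SimpleGraph.Dart.ext
          exact Prod.ext hd h4
        · right
          apply SimpleGraph.Dart.ext
          exact Prod.ext hd h4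
      · rintro (rfl | rfl)
        · refine ⟨⟨Finset.mem_univ _, rfl⟩, ?_⟩
          exact SimpleGraph.Walk.adj_toSubgraph_iff_mem_edges.1 ((hadj y).2 (Or.inl rfl))
        · refine ⟨⟨Finset.mem_univ _, rfl⟩, ?_⟩
          exact SimpleGraph.Walk.adj_toSubgraph_iff_mem_edges.1 ((hadj z).2 (Or.inr rfl))
    rw [hset, Finset.card_pair]
    · decide
    · intro h
      apply hyz
      have := congrArg (fun d : G.Dart => d.snd) h
      exact this
  · have hset : (Finset.univ.filter (fun d : G.Dart => d.fst = w)).filter
        (fun d => d.edge ∈ c.edges) = ∅ := by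
      rw [Finset.eq_empty_iff_forall_notMem]
      intro d hd
      rw [Finset.mem_filter, Finset.mem_filter] at hd
      apply hw
      have h3 : s(w, d.snd) ∈ c.edges := by
        have : d.edge = s(w, d.snd) := by
          rw [← hd.1.2]
          rfl
        rw [← this]
        exact hd.2
      exact c.fst_mem_support_of_mem_edges h3
    rw [hset, Finset.card_empty, zero_smul]

/-- there are `2 * length` darts on a cycle -/
theorem cyc_count {V : Type} [DecidableEq V] {G : SimpleGraph V} [Fintype G.Dart] {v : V}
    (c : G.Walk v v) (hc : c.IsCycle) :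
    {d : G.Dart | d.edge ∈ c.edges}.ncard = 2 * c.length := by
  classical
  rw [Set.ncard_eq_toFinset_card', Set.toFinset_ofPred]
  have h1 : (Finset.univ.filter (fun d : G.Dart => d.edge ∈ c.edges)).card =
      ∑ e ∈ c.edges.toFinset, (Finset.univ.filter (fun d : G.Dart => d.edge = e)).card := by
    rw [← Finset.card_biUnion]
    · congr 1
      ext d
      simp
    · intro a _ b _ hab
      show _root_.Disjoint _ _
      rw [Finset.disjoint_left]
      intro d h1 h2
      rw [Finset.mem_filter] at h1 h2
      exact hab (h1.2.symm.trans h2.2)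
  rw [h1]
  have h2 : ∀ e ∈ c.edges.toFinset, (Finset.univ.filter (fun d : G.Dart => d.edge = e)).card = 2 := by
    intro e he
    rw [List.mem_toFinset] at he
    have he' := c.edges_subset_edgeSet he
    induction e with
    | h a b =>
      have hab : G.Adj a b := he'
      have : Finset.univ.filter (fun d : G.Dart => d.edge = s(a, b)) =
          {⟨(a, b), hab⟩, ⟨(b, a), hab.symm⟩} := by
        ext d
        rw [Finset.mem_filter, Finset.mem_insert, Finset.mem_singleton]
        constructor
        · rintro ⟨-, hd⟩
          have h3 : s(d.fst, d.snd) = s(a, b) := hd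
          rw [Sym2.eq_iff] at h3
          rcases h3 with h3 | h3
          · left
            exact SimpleGraph.Dart.ext _ _ (Prod.ext h3.1 h3.2)
          · right
            exact SimpleGraph.Dart.ext _ _ (Prod.ext h3.1 h3.2)
        · rintro (rfl | rfl)
          · exact ⟨Finset.mem_univ _, rfl⟩
          · exact ⟨Finset.mem_univ _, Sym2.eq_swap⟩
      rw [this, Finset.card_pair]
      intro h
      have := congrArg (fun d : G.Dart => d.fst) h
      exact hab.ne this
  rw [Finset.sum_const_nat h2, List.toFinset_card_of_nodup hc.edges_nodup,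
    SimpleGraph.Walk.length_edges, mul_comm]

theorem main (hCn : StCn0) : StCyc := by
  classical
  intro V _ G R L hG hcyc
  have hfin : Finite G.Dart := Finite.of_injective (fun d : G.Dart => d.toProd)
    (fun a b h => SimpleGraph.Dart.ext _ _ h)
  have hft : Fintype G.Dart := Fintype.ofFinite _
  suffices H : ∀ n : ℕ, ∀ p, FC R.map p → Sep R.map p → cut R.map p = n → 2 * L ≤ cut R.map p by
    intro p hp hs
    exact H _ p hp hs rfl
  intro n
  induction n using Nat.strong_induction_on with
  | _ n ih =>
    intro p hp hs hn
    obtain ⟨a, b, ha, hb, hab⟩ := hs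
    have hn0 : cut R.map p ≠ 0 := fun h => hab (hCn V G.Dart R.map p (conn_map R hG) hp h a b)
    -- the graph of the darts where `p` changes
    let T : SimpleGraph V :=
      { Adj := fun x y => ∃ d : G.Dart, d.fst = x ∧ d.snd = y ∧ p d.symm ≠ p d
        symm := ⟨by
          rintro x y ⟨d, h1, h2, h3⟩
          refine ⟨d.symm, h2, h1, ?_⟩
          rw [SimpleGraph.Dart.symm_symm]
          exact h3.symm⟩
        loopless := ⟨by
          rintro x ⟨d, h1, h2, -⟩
          exact d.fst_ne_snd (h1.trans h2.symm)⟩ }
    have hTG : T ≤ G := by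
      rintro x y ⟨d, rfl, rfl, -⟩
      exact d.adj
    obtain ⟨d0, hd0⟩ : ∃ d0 : G.Dart, p d0.symm ≠ p d0 := by
      by_contra hcon
      push Not at hcon
      apply hn0
      unfold cut
      have : {d : G.Dart | p (R.map.ι d) ≠ p d} = ∅ := by
        rw [Set.eq_empty_iff_forall_notMem]
        intro d hd
        exact hd (hcon d)
      rw [this, Set.ncard_empty]
    have hTn : ¬ T.IsAcyclic := by
      intro hT
      obtain ⟨u, w, huw, hu⟩ := leaf T hT (a := d0.fst) (b := d0.snd) ⟨d0, rfl, rfl, hd0⟩
      obtain ⟨e, he1, he2, he3⟩ := huw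
      have h1 := sum_zero R.map p hp u
      have h2 : ∑ d ∈ Finset.univ.filter (fun d => R.map.t d = u), (p (R.map.ι d) + p d) = 1 := by
        rw [Finset.sum_eq_single e]
        · exact z2_ne he3
        · intro d hd hde
          rw [Finset.mem_filter] at hd
          by_contra hne
          have h3 : p d.symm ≠ p d := fun h => hne (z2_eq h)
          have h4 := hu d.snd ⟨d, hd.2, rfl, h3⟩
          exact hde (SimpleGraph.Dart.ext _ _ (Prod.ext (hd.2.trans he1.symm) (h4.trans he2.symm)))
        · intro h
          apply absurd _ h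
          rw [Finset.mem_filter]
          exact ⟨Finset.mem_univ _, he1⟩
      rw [h1] at h2
      exact absurd h2 (by decide)
    have hex : ∃ (v : V) (c : T.Walk v v), c.IsCycle := by
      by_contra hcon
      push Not at hcon
      exact hTn (fun v c => hcon v c)
    obtain ⟨v, c₀, hc₀⟩ := hex
    obtain ⟨c, hc, hce⟩ : ∃ c : G.Walk v v, c.IsCycle ∧ c.edges = c₀.edges :=
      ⟨c₀.mapLe hTG, hc₀.mapLe hTG, SimpleGraph.Walk.edges_mapLe_eq_edges hTG c₀⟩
    have hedge : ∀ d : G.Dart, d.edge ∈ c.edges → p d.symm ≠ p d := by
      intro d hd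
      rw [hce] at hd
      have h1 : d.edge ∈ T.edgeSet := c₀.edges_subset_edgeSet hd
      have h2 : T.Adj d.fst d.snd := h1
      obtain ⟨d', h3, h4, h5⟩ := h2
      have h6 : d' = d := SimpleGraph.Dart.ext _ _ (Prod.ext h3 h4)
      rwa [h6] at h5
    obtain ⟨x, hx⟩ : ∃ x : G.Dart → ZMod 2, x = fun d => if d.edge ∈ c.edges then 1 else 0 :=
      ⟨_, rfl⟩
    have hxι : ∀ d, x (R.map.ι d) = x d := by
      intro d
      rw [hx]
      show (if d.symm.edge ∈ c.edges then (1 : ZMod 2) else 0) = _
      rw [SimpleGraph.Dart.edge_symm]
    obtain ⟨u, hu⟩ := M_POT.main V G.Dart R.map x (by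
      intro w
      rw [hx]
      exact cyc_sum c hc w)
    obtain ⟨y, hy1, hy2⟩ := R.map.pl x u hxι hu
    have hyF : FC R.map y := by
      intro d
      rw [PMap.φ_apply, hy1, hy2, hxι, zadd_self']
    have hyc : ∀ d : G.Dart, y d.symm ≠ y d ↔ d.edge ∈ c.edges := by
      intro d
      have h1 : y d.symm = y d + x d := hy2 d
      constructor
      · intro h
        by_contra hcon
        apply h
        rw [h1, hx]
        simp only [if_neg hcon, add_zero]
      · intro h
        apply z2_add1
        rw [h1, hx]
        simp only [if_pos h]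
    by_cases hys : Sep R.map y
    · have hL : L ≤ c.length := hcyc v c hc ⟨y, hyF, hyc, hys⟩
      have h1 : {d : G.Dart | d.edge ∈ c.edges} ⊆ {d | p (R.map.ι d) ≠ p d} := hedge
      have h2 := Set.ncard_le_ncard h1 (Set.toFinite _)
      rw [cyc_count c hc] at h2
      unfold cut
      omega
    · have hyab : y a = y b := by
        by_contra h
        exact hys ⟨a, b, ha, hb, h⟩
      have hF' : FC R.map (fun d => p d + y d) := by
        intro d
        show p (R.map.φ d) + y (R.map.φ d) = p d + y d
        rw [hp, hyF]
      have hS' : Sep R.map (fun d => p d + y d) := by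
        refine ⟨a, b, ha, hb, ?_⟩
        show p a + y a ≠ p b + y b
        rw [hyab]
        exact fun h => hab (add_right_cancel h)
      have hlt : cut R.map (fun d => p d + y d) < cut R.map p := by
        unfold cut
        apply Set.ncard_lt_ncard _ (Set.toFinite _)
        rw [Set.ssubset_iff_exists]
        have key : ∀ d : G.Dart, d.edge ∈ c.edges → p d.symm + y d.symm = p d + y d := by
          intro d hd
          have h1 := hedge d hd
          have h2 := (hyc d).2 hd
          revert h1 h2
          generalize p d.symm = q1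
          generalize p d = q2
          generalize y d.symm = q3
          generalize y d = q4
          revert q1 q2 q3 q4
          decide
        refine ⟨fun d hd => ?_, ?_⟩
        · intro h
          by_cases hde : d.edge ∈ c.edges
          · exact hd (key d hde)
          · have h3 : y d.symm = y d := by
              by_contra h4
              exact hde ((hyc d).1 h4)
            apply hd
            show p d.symm + y d.symm = p d + y d
            rw [h3]
            exact congrArg (· + y d) h
        · have hlen := hc.three_le_length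
          have hne : c.edges ≠ [] := by
            intro h
            have := congrArg List.length h
            rw [SimpleGraph.Walk.length_edges, List.length_nil] at this
            omega
          obtain ⟨e, he⟩ := List.exists_mem_of_ne_nil _ hne
          have he' := c.edges_subset_edgeSet he
          induction e with
          | h s t =>
            have hst : G.Adj s t := he'
            refine ⟨⟨(s, t), hst⟩, ?_, ?_⟩
            · exact hedge ⟨(s, t), hst⟩ he
            · intro h
              exact h (key ⟨(s, t), hst⟩ he)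
      have h1 := ih _ (hn ▸ hlt) _ hF' hS' rfl
      omega

end Pool.Agent.Helper36.SO.CYC
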